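import Pool.Agent.H298R2.PS.Num

set_option autoImplicit false

open Finset MeasureTheory Filter

namespace Pool.Agent.H811R3.PS

namespace B298

/-! ## vectors -/

theorem ic_add {d : ℕ} (u v : Fin d → ℤ) : ic (u + v) = ic u + ic v := by
  funext i
  simp [ic]

theorem ic_sub {d : ℕ} (u v : Fin d → ℤ) : ic (u - v) = ic u - ic v := by
  funext i
  simp [ic]

theorem dot_add {d : ℕ} (l u v : Fin d → ℝ) : dot l (u + v) = dot l u + dot l v := by
  unfold dot
  rw [← Finset.sum_add_distrib]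
  exact Finset.sum_congr rfl fun i _ => by simp [mul_add]

theorem dot_sub {d : ℕ} (l u v : Fin d → ℝ) : dot l (u - v) = dot l u - dot l v := by
  unfold dot
  rw [← Finset.sum_sub_distrib]
  exact Finset.sum_congr rfl fun i _ => by simp [mul_sub]

theorem dia {d : ℕ} (l : Fin d → ℝ) (u v : Fin d → ℤ) :
    dot l (ic (u + v)) = dot l (ic u) + dot l (ic v) := by rw [ic_add, dot_add]

theorem dis {d : ℕ} (l : Fin d → ℝ) (u v : Fin d → ℤ) :
    dot l (ic (u - v)) = dot l (ic u) - dot l (ic v) := by rw [ic_sub, dot_sub]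

theorem cnt_zero {d : ℕ} (w : ℕ → Fin d) : cnt w 0 0 = 0 := by
  funext i
  simp [cnt]

theorem dot_cnt_zero {d : ℕ} (l : Fin d → ℝ) (w : ℕ → Fin d) : dot l (ic (cnt w 0 0)) = 0 := by
  rw [cnt_zero]
  simp [dot, ic]

theorem dot_cnt_succ {d : ℕ} (l : Fin d → ℝ) (w : ℕ → Fin d) (t : ℕ) :
    dot l (ic (cnt w 0 (t + 1))) = dot l (ic (cnt w 0 t)) + l (w t) := by
  have h : ic (cnt w 0 (t + 1)) = ic (cnt w 0 t) + fun i => if w t = i then (1 : ℝ) else 0 := by
    funext i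
    simp only [ic, cnt, Pi.add_apply]
    rw [Finset.sum_Ico_succ_top (Nat.zero_le t)]
    push_cast
    congr 1
  rw [h, dot_add]
  congr 1
  unfold dot
  simp

theorem sum_cnt {d : ℕ} (w : ℕ → Fin d) (t : ℕ) : ∑ i, cnt w 0 t i = (t : ℤ) := by
  unfold cnt
  rw [Finset.sum_comm]
  simp

theorem lm_le {d : ℕ} {l : Fin d → ℝ} (hl : ∀ i, 0 < l i) (i : Fin d) : lm l ≤ l i := by
  unfold lm
  have h1 : (l i)⁻¹ ≤ ∑ j, (l j)⁻¹ :=
    Finset.single_le_sum (f := fun j => (l j)⁻¹) (fun j _ => (inv_pos.2 (hl j)).le)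
      (Finset.mem_univ i)
  have h2 := inv_anti₀ (inv_pos.2 (hl i)) h1
  rwa [inv_inv] at h2

theorem le_sl {d : ℕ} {l : Fin d → ℝ} (hl : ∀ i, 0 < l i) (i : Fin d) : l i ≤ sl l :=
  Finset.single_le_sum (f := l) (fun j _ => (hl j).le) (Finset.mem_univ i)

theorem abs_dot_le {d : ℕ} {l : Fin d → ℝ} (hl : ∀ i, 0 < l i) (u : Fin d → ℝ) :
    |dot l u| ≤ sl l * ‖u‖ := by
  unfold dot sl
  rw [Finset.sum_mul]
  refine (Finset.abs_sum_le_sum_abs _ _).trans (Finset.sum_le_sum fun i _ => ?_)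
  rw [abs_mul, abs_of_pos (hl i)]
  exact mul_le_mul_of_nonneg_left (by simpa using norm_le_pi_norm u i) (hl i).le

/-- the position after `t` letters is close to `t` if the discrepancy is small -/
theorem pos_close {d : ℕ} {l f : Fin d → ℝ} (hl : ∀ i, 0 < l i) (hlf : dot l f = 1)
    (w : ℕ → Fin d) (t : ℕ) {R : ℝ} (h : ‖prj f (ic (cnt w 0 t))‖ ≤ R) :
    |dot l (ic (cnt w 0 t)) - t| ≤ sl l * R := by
  have h1 : dot l (prj f (ic (cnt w 0 t))) = dot l (ic (cnt w 0 t)) - t := by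
    have h2 : prj f (ic (cnt w 0 t)) = ic (cnt w 0 t) - fun i => (t : ℝ) * f i := by
      funext i
      have h3 : ∑ j, ic (cnt w 0 t) j = (t : ℝ) := by
        have := sum_cnt w t
        unfold ic
        rw [← Int.cast_sum, this]
        push_cast
        rfl
      simp only [prj, Pi.sub_apply, h3]
    rw [h2, dot_sub]
    congr 1
    have h4 : dot l (fun i => (t : ℝ) * f i) = t * dot l f := by
      unfold dot
      rw [Finset.mul_sum]
      exact Finset.sum_congr rfl fun i _ => by ring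
    rw [h4, hlf, mul_one]
  rw [← h1]
  have hsl : 0 ≤ sl l := Finset.sum_nonneg fun i _ => (hl i).le
  exact (abs_dot_le hl _).trans (mul_le_mul_of_nonneg_left h hsl)

theorem dot_mulVec {d : ℕ} {A : Matrix (Fin d) (Fin d) ℤ} {Lam : ℝ} {l f : Fin d → ℝ}
    (h : Dat A Lam l f) (v : Fin d → ℤ) : dot l (ic (A.mulVec v)) = Lam * dot l (ic v) := by
  unfold dot ic
  have h1 : ∀ i, ((A.mulVec v i : ℤ) : ℝ) = ∑ j, (A i j : ℝ) * (v j : ℝ) := by
    intro i
    simp only [Matrix.mulVec, dotProduct]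
    push_cast
    rfl
  simp only [h1]
  simp only [Finset.mul_sum]
  rw [Finset.sum_comm]
  refine Finset.sum_congr rfl fun j _ => ?_
  have h2 := h.left j
  calc ∑ i, l i * ((A i j : ℝ) * (v j : ℝ)) = (∑ i, l i * (A i j : ℝ)) * v j := by
        rw [Finset.sum_mul]
        exact Finset.sum_congr rfl fun i _ => by ring
    _ = Lam * (l j * v j) := by rw [h2]; ring

theorem dot_col {d : ℕ} {A : Matrix (Fin d) (Fin d) ℤ} {Lam : ℝ} {l f : Fin d → ℝ}
    (h : Dat A Lam l f) (j : Fin d) : dot l (ic (fun r => A r j)) = Lam * l j := h.left j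

theorem cnt_congr {d : ℕ} {w w' : ℕ → Fin d} {τ : ℕ} (h : ∀ t < τ, w t = w' t) {t : ℕ}
    (ht : t ≤ τ) : cnt w 0 t = cnt w' 0 t := by
  funext i
  unfold cnt
  refine Finset.sum_congr rfl fun s hs => ?_
  rw [h s (lt_of_lt_of_le (Finset.mem_Ico.1 hs).2 ht)]

/-! ## probabilities -/

theorem Pr_mono {d : ℕ} (hEX : StEX) {f : Fin d → ℝ} (hf : PV f) (τ L : ℕ)
    {S S' : (ℕ → Fin d) → Prop} (h : ∀ w, S w → S' w) (w : ℕ → Fin d) :
    Pr f τ L S w ≤ Pr f τ L S' w := by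
  unfold Pr
  refine (hEX d f hf).2.2.1 τ L _ _ w fun w' _ => ?_
  by_cases h1 : S w'
  · rw [if_pos h1, if_pos (h w' h1)]
  · rw [if_neg h1]
    split_ifs <;> norm_num

theorem Pr_empty {d : ℕ} (hEX : StEX) {f : Fin d → ℝ} (hf : PV f) (τ L : ℕ)
    {S : (ℕ → Fin d) → Prop} (h : ∀ w, ¬ S w) (w : ℕ → Fin d) : Pr f τ L S w = 0 := by
  unfold Pr
  refine Eq.trans ?_ ((hEX d f hf).2.1 τ L 0 w)
  congr 1
  funext w'
  rw [if_neg (h w')]

/-! ## first passage -/

/-- a sequence with small steps which reaches the level `B` and starts below `B + s` hits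
`[B, B + s]`, at the first time when it is at least `B` -/
theorem first_hit {X : ℕ → ℝ} {s B : ℝ} (hs : ∀ t, X (t + 1) ≤ X t + s) (h0 : X 0 ≤ B + s)
    {T : ℕ} (hT : B ≤ X T) :
    B ≤ X (sInf {t | B ≤ X t}) ∧ X (sInf {t | B ≤ X t}) ≤ B + s ∧ sInf {t | B ≤ X t} ≤ T := by
  have hne : {t | B ≤ X t}.Nonempty := ⟨T, hT⟩
  have h1 := Nat.sInf_mem hne
  refine ⟨h1, ?_, Nat.sInf_le hT⟩
  rcases Nat.eq_zero_or_pos (sInf {t | B ≤ X t}) with h | h
  · rw [h]
    exact h0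
  · obtain ⟨t, ht⟩ : ∃ t, sInf {t | B ≤ X t} = t + 1 := ⟨sInf {t | B ≤ X t} - 1, by omega⟩
    rw [ht]
    have h2 : t ∉ {t | B ≤ X t} := Nat.notMem_of_lt_sInf (by omega)
    have h3 : X t < B := by
      by_contra h4
      push Not at h4
      exact h2 h4
    have h4 := hs t
    linarith

end B298

end Pool.Agent.H811R3.PS
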