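import Pool.Agent.H811R3.PS.Defs2

set_option autoImplicit false

open Finset MeasureTheory Filter

namespace Pool.Agent.H811R3.PS

namespace B298

/-! ## numerical facts -/

theorem ev_pow {a b C c : ℝ} (hab : a < b) (hc : 0 < c) :
    ∀ᶠ y : ℝ in atTop, C * y ^ a ≤ c * y ^ b := by
  have h1 : Tendsto (fun y : ℝ => y ^ (b - a)) atTop atTop := tendsto_rpow_atTop (by linarith)
  filter_upwards [h1.eventually_ge_atTop (C / c), eventually_gt_atTop (0 : ℝ)] with y hy hy0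
  have h2 : y ^ b = y ^ a * y ^ (b - a) := by
    rw [← Real.rpow_add hy0]
    congr 1
    ring
  have h3 : 0 < y ^ a := Real.rpow_pos_of_pos hy0 a
  rw [h2]
  have h4 : C ≤ c * y ^ (b - a) := by
    rw [div_le_iff₀ hc] at hy
    linarith
  calc C * y ^ a ≤ (c * y ^ (b - a)) * y ^ a := mul_le_mul_of_nonneg_right h4 h3.le
    _ = _ := by ring

/-- the numerical conditions used below -/
structure BNum {d : ℕ} (l : Fin d → ℝ) (δ C1 c : ℝ) (m0 : ℕ) (y : ℝ) : Prop where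
  one_le : 1 ≤ y
  m0le : m0 ≤ mP d δ y
  m1 : 1 ≤ mP d δ y
  n1 : 2 * (sl l * R0P l δ y) + 3 + mP d δ y + sl l ≤ y * lm l / 8
  n3 : (1 - c * (mP d δ y : ℝ) ^ (-(((d : ℝ) - 1) / 2))) ^ ⌊y * lm l / (24 * mP d δ y)⌋₊ ≤
    Real.exp (-(c * lm l / 48 * y ^ δ))
  n4 : (mP d δ y : ℝ) + 2 * sl l ≤ y * eP d C1 δ y
  n5 : 2 * eP d C1 δ y ≤ lm l / 4
  e0 : 0 ≤ eP d C1 δ y

theorem ev_num {d : ℕ} (hd : 2 ≤ d) {l : Fin d → ℝ} (hl : ∀ i, 0 < l i) {δ C1 c : ℝ}
    (hδ : 0 < δ) (hδ1 : δ ≤ 1 / (10 * ((d : ℝ) + 1) ^ 3)) (hC1 : 0 < C1) (hc : 0 < c) (m0 : ℕ) :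
    ∀ᶠ y : ℝ in atTop, BNum l δ C1 c m0 y := by
  have hdR : (2 : ℝ) ≤ d := by exact_mod_cast hd
  have hne : (univ : Finset (Fin d)).Nonempty := ⟨⟨0, by omega⟩, mem_univ _⟩
  have hsl : 0 < sl l := Finset.sum_pos (fun i _ => hl i) hne
  have hlm : 0 < lm l := inv_pos.2 (Finset.sum_pos (fun i _ => inv_pos.2 (hl i)) hne)
  set β : ℝ := 2 / ((d : ℝ) + 1) - δ with hβ
  have hδ2 : δ ≤ 1 / (10 * ((d : ℝ) + 1)) := by
    refine hδ1.trans (one_div_le_one_div_of_le (by positivity) ?_)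
    have : (1 : ℝ) ≤ ((d : ℝ) + 1) ^ 2 := by nlinarith
    nlinarith
  have hδ3 : δ * ((d : ℝ) + 1) ≤ 1 / 10 := by
    have h := mul_le_mul_of_nonneg_right hδ2 (show (0 : ℝ) ≤ (d : ℝ) + 1 by positivity)
    have h2 : 1 / (10 * ((d : ℝ) + 1)) * ((d : ℝ) + 1) = 1 / 10 := by field_simp
    linarith
  have hβmul : β * ((d : ℝ) + 1) = 2 - δ * ((d : ℝ) + 1) := by
    rw [hβ]
    field_simp
  have hβ0 : 0 < β := by
    by_contra h
    push Not at h
    have : β * ((d : ℝ) + 1) ≤ 0 := mul_nonpos_of_nonpos_of_nonneg h (by positivity)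
    linarith
  have hβ1 : β < 1 := by
    by_contra h
    push Not at h
    have : (1 : ℝ) * ((d : ℝ) + 1) ≤ β * ((d : ℝ) + 1) :=
      mul_le_mul_of_nonneg_right h (by positivity)
    have h2 : 0 < δ * ((d : ℝ) + 1) := by positivity
    linarith
  have hδ4 : δ < 1 / 4 := by
    have : (3 : ℝ) * δ ≤ δ * ((d : ℝ) + 1) := by nlinarith
    linarith
  have hm_tend : Tendsto (fun y : ℝ => mP d δ y) atTop atTop :=
    tendsto_nat_floor_atTop.comp (tendsto_rpow_atTop hβ0)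
  have hmR_tend : Tendsto (fun y : ℝ => (mP d δ y : ℝ)) atTop atTop :=
    tendsto_natCast_atTop_atTop.comp hm_tend
  have hg : 0 < ((d : ℝ) - 1) / 2 := by linarith
  have hmg_tend : Tendsto (fun y : ℝ => (mP d δ y : ℝ) ^ (-(((d : ℝ) - 1) / 2))) atTop (nhds 0) :=
    (tendsto_rpow_neg_atTop hg).comp hmR_tend
  have hR : ∀ y : ℝ, 0 < y → R0P l δ y = √(1 + sl l) * y ^ (δ + 1 / 2) := by
    intro y hy
    unfold R0P L0P
    rw [Real.sqrt_mul (by positivity), Real.rpow_add hy, ← Real.sqrt_eq_rpow]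
    ring
  filter_upwards [eventually_ge_atTop (1 : ℝ), hm_tend.eventually_ge_atTop m0,
    hm_tend.eventually_ge_atTop 1,
    ev_pow (a := δ + 1 / 2) (b := 1) (C := 2 * (sl l * √(1 + sl l))) (c := lm l / 32)
      (by linarith) (by positivity),
    ev_pow (a := β) (b := 1) (C := 1) (c := lm l / 48) hβ1 (by positivity),
    ev_pow (a := 0) (b := 1) (C := 3 + sl l) (c := lm l / 32) (by norm_num) (by positivity),
    ev_pow (a := β) (b := 1 - β * (((d : ℝ) - 1) / 2)) (C := 1 + 2 * sl l) (c := C1)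
      (by
        have h1 : β * (((d : ℝ) - 1) / 2) = β * ((d : ℝ) + 1) / 2 - β := by ring
        rw [h1, hβmul]
        have h2 : 0 < δ * ((d : ℝ) + 1) := by positivity
        linarith) hC1,
    hmg_tend.eventually (gt_mem_nhds (show (0 : ℝ) < lm l / 8 / C1 by positivity)),
    hmg_tend.eventually (gt_mem_nhds (show (0 : ℝ) < 1 / c by positivity))]
    with y h1 h2 h3 h4 h5 h6 h7 h8 h9
  have hy0 : 0 < y := by linarith
  have hm : (mP d δ y : ℝ) ≤ y ^ β := Nat.floor_le (by positivity)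
  have hm1 : (1 : ℝ) ≤ (mP d δ y : ℝ) := by exact_mod_cast h3
  have hmpos : (0 : ℝ) < (mP d δ y : ℝ) := by linarith
  simp only [Real.rpow_one, Real.rpow_zero, mul_one, one_mul] at h4 h5 h6
  have hmy : (mP d δ y : ℝ) ≤ lm l / 48 * y := hm.trans h5
  refine ⟨h1, h2, h3, ?_, ?_, ?_, ?_, ?_⟩
  · rw [hR y hy0]
    have : 2 * (sl l * (√(1 + sl l) * y ^ (δ + 1 / 2))) =
        2 * (sl l * √(1 + sl l)) * y ^ (δ + 1 / 2) := by ring
    rw [this]
    nlinarith
  · set m : ℝ := (mP d δ y : ℝ) with hmdef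
    set K : ℕ := ⌊y * lm l / (24 * m)⌋₊ with hK
    set x : ℝ := c * m ^ (-(((d : ℝ) - 1) / 2)) with hx
    have hx1 : x ≤ 1 := by
      rw [hx]
      have := mul_le_mul_of_nonneg_left h9.le hc.le
      rw [mul_one_div, div_self hc.ne'] at this
      exact this
    have hx0 : 0 ≤ x := by positivity
    have hK2 : y * lm l / (48 * m) ≤ K := by
      have h10 : y * lm l / (24 * m) < K + 1 := Nat.lt_floor_add_one _
      have h11 : 1 ≤ y * lm l / (48 * m) := by
        rw [le_div_iff₀ (by positivity)]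
        linarith
      have h12 : y * lm l / (24 * m) = 2 * (y * lm l / (48 * m)) := by
        field_simp
        ring
      linarith
    have h13 : (1 - x) ^ K ≤ Real.exp (-(x * K)) := by
      have h14 : (1 - x) ≤ Real.exp (-x) := by
        have := Real.add_one_le_exp (-x)
        linarith
      calc (1 - x) ^ K ≤ (Real.exp (-x)) ^ K := pow_le_pow_left₀ (by linarith) h14 K
        _ = Real.exp (-(x * K)) := by
          rw [← Real.exp_nat_mul]
          congr 1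
          ring
    refine h13.trans (Real.exp_le_exp.2 (neg_le_neg ?_))
    have h15 : x * (y * lm l / (48 * m)) ≤ x * K := mul_le_mul_of_nonneg_left hK2 hx0
    refine le_trans ?_ h15
    have h16 : x * (y * lm l / (48 * m)) = c * lm l / 48 * (y * m ^ (-(((d : ℝ) + 1) / 2))) := by
      rw [hx]
      have : -(((d : ℝ) + 1) / 2) = -(((d : ℝ) - 1) / 2) - 1 := by ring
      rw [this, Real.rpow_sub_one hmpos.ne']
      field_simp
    rw [h16]
    refine mul_le_mul_of_nonneg_left ?_ (by positivity)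
    -- y m^{-(d+1)/2} ≥ y^δ
    have h17 : (y ^ β) ^ (-(((d : ℝ) + 1) / 2)) ≤ m ^ (-(((d : ℝ) + 1) / 2)) :=
      Real.rpow_le_rpow_of_nonpos hmpos hm (by
        have : 0 ≤ ((d : ℝ) + 1) / 2 := by positivity
        linarith)
    have h18 : y ^ δ ≤ y * (y ^ β) ^ (-(((d : ℝ) + 1) / 2)) := by
      rw [← Real.rpow_mul hy0.le]
      have h19 : β * (-(((d : ℝ) + 1) / 2)) = -1 + δ * ((d : ℝ) + 1) / 2 := by
        have : β * (-(((d : ℝ) + 1) / 2)) = -(β * ((d : ℝ) + 1)) / 2 := by ring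
        rw [this, hβmul]
        ring
      rw [h19]
      have h20 : y * y ^ (-1 + δ * ((d : ℝ) + 1) / 2) = y ^ (δ * ((d : ℝ) + 1) / 2) := by
        nth_rewrite 1 [← Real.rpow_one y]
        rw [← Real.rpow_add hy0]
        congr 1
        ring
      rw [h20]
      apply Real.rpow_le_rpow_of_exponent_le h1
      nlinarith
    exact h18.trans (mul_le_mul_of_nonneg_left h17 hy0.le)
  · unfold eP
    have h10 : (y ^ β) ^ (-(((d : ℝ) - 1) / 2)) ≤ (mP d δ y : ℝ) ^ (-(((d : ℝ) - 1) / 2)) :=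
      Real.rpow_le_rpow_of_nonpos hmpos hm (by linarith)
    have h11 : C1 * y ^ (1 - β * (((d : ℝ) - 1) / 2)) =
        y * (C1 * (y ^ β) ^ (-(((d : ℝ) - 1) / 2))) := by
      rw [← Real.rpow_mul hy0.le]
      have : β * (-(((d : ℝ) - 1) / 2)) = -(β * (((d : ℝ) - 1) / 2)) := by ring
      rw [this, sub_eq_add_neg, Real.rpow_add hy0, Real.rpow_one]
      ring
    have h12 : (1 : ℝ) ≤ y ^ β := Real.one_le_rpow h1 hβ0.le
    have h13 : (mP d δ y : ℝ) + 2 * sl l ≤ (1 + 2 * sl l) * y ^ β := by nlinarith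
    refine h13.trans (h7.trans ?_)
    rw [h11]
    exact mul_le_mul_of_nonneg_left (mul_le_mul_of_nonneg_left h10 hC1.le) hy0.le
  · unfold eP
    have h10 := mul_le_mul_of_nonneg_left h8.le hC1.le
    have h11 : C1 * (lm l / 8 / C1) = lm l / 8 := by
      field_simp
    rw [h11] at h10
    linarith
  · unfold eP
    positivity

end B298

end Pool.Agent.H811R3.PS
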